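import Pool.Agent.Lib.MP_09e206_co.Rigid
import Pool.Agent.Lib.MP_09e206_co.Asym

namespace Pool.Agent.Results.MP_09e206_co.KempeRooted

open RootedKC

/-- Every graph which realizes a Kempe-rigid set of `k`-colourings of `X` (for instance the
set of all bijections from a `k`-set `X` to the colours) has an `X`-rooted clique minor of
order at least `c (k ^ 2 / log k) ^ (1 / 3)`. -/
theorem result : ∃ c : ℝ, 0 < c ∧ ∀ k : ℕ, 2 ≤ k → ∃ m : ℕ,
    c * ((k : ℝ) ^ 2 / Real.log k) ^ ((1 : ℝ) / 3) ≤ m ∧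
    KempeRigid {f : Fin k → Fin k | Function.Bijective f} ∧
    ∀ (X : Type) (C : Set (X → Fin k)), KempeRigid C →
      ∀ (V : Type) (G : SimpleGraph V) (ι : X ↪ V), Realizes G ι C →
        HasRootedModel G (Set.range ι) (⊤ : SimpleGraph (Fin m)) := by
  obtain ⟨c, hc, h⟩ := kempe_rooted
  refine ⟨c, hc, fun k hk => ?_⟩
  obtain ⟨m, hm, h2⟩ := h k hk
  refine ⟨m, hm, rigid_bijections k, ?_⟩
  intro X C hC V G ι hR
  obtain ⟨P, hP⟩ := exists_PS_rigid G ι C hR hC
  refine HasRootedModel.mono ?_ (h2 V G P)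
  rintro _ ⟨i, rfl⟩
  exact hP i

end Pool.Agent.Results.MP_09e206_co.KempeRooted
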