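import Pool.Agent.Lib.MP_09e206_co.MainKT

/-!
# MP_09e206_co: rooted complete minors in the graphs realizing a set of colourings

There is `c > 0` such that for every `k ≥ 3` there are a finite set `X` and a set `C` of
`k`-colourings of `X` such that no finite `X`-rooted-`K_m`-minor-free graph realizes `C`, whenever
`m ≤ c k / √(log k)`.
-/

namespace Pool.Agent.Results.MP_09e206_co.RootedCliqueNearLinear

theorem result :
    ∃ c : ℝ, 0 < c ∧ ∀ k : ℕ, 3 ≤ k →
      ∃ (X : Type) (_ : Finite X) (C : Set (X → Fin k)),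
        RootedKC.IsColSet k C ∧ C.Nonempty ∧
        ∀ (V : Type) [Finite V] (G : SimpleGraph V) (ι : X ↪ V), RootedKC.Realizes G ι C →
          ∀ m : ℕ, (m : ℝ) ≤ c * k / Real.sqrt (Real.log k) →
            RootedKC.HasRootedModel G (Set.range ι) (⊤ : SimpleGraph (Fin m)) := by
  obtain ⟨c, hc, h⟩ := Pool.Agent.Lib.MP_09e206_co.mainKT
  refine ⟨c, hc, ?_⟩
  intro k hk
  refine ⟨Fin k, inferInstance, {f : Fin k → Fin k | Function.Bijective f}, ?_,
    ⟨id, Function.bijective_id⟩, ?_⟩
  · intro f hf π
    exact π.bijective.comp hf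
  · intro V _ G ι hreal m hm
    exact h k (by omega) V G ι hreal m hm

end Pool.Agent.Results.MP_09e206_co.RootedCliqueNearLinear
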